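import Mathlib

set_option autoImplicit false

namespace Pool.Agent.Results.MP_26672a_co.Cex

open Finset

/-- Number of positions of `w` carrying the symbol `x`; the letter `a : Fin r` stands for `a + 1`. -/
def cnt {r n : ℕ} (x : ℕ) (w : Fin n → Fin r) : ℕ := (univ.filter fun i => (w i).1 + 1 = x).card

/-- Deletion shadow of a family of words of length `m + 1`. -/
def shadow {r m : ℕ} (F : Finset (Fin (m + 1) → Fin r)) : Finset (Fin m → Fin r) :=
  univ.filter fun u => ∃ w ∈ F, ∃ i : Fin (m + 1), u = fun j => w (i.succAbove j)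

/-- The family `F_{s,k,l}` inside `[r]^n`. -/
def fam (r n s k l : ℕ) : Finset (Fin n → Fin r) :=
  univ.filter fun w => (∀ i, (w i).1 + 1 ≤ s) ∧
    (cnt s w ≤ k ∨ (cnt s w = k + 1 ∧ cnt (s - 1) w ≤ l))

def G : Finset (Fin 4 → Fin 3) := univ.filter fun w => cnt 3 w ≤ 1 ∧ w 0 ≠ 2 ∧ w 1 ≠ 2

theorem result : ¬ ∀ (r m s k l : ℕ), 2 ≤ r → 2 ≤ m + 1 → 2 ≤ s → s ≤ r → k ≤ m → l ≤ m - k →
    ∀ G : Finset (Fin (m + 1) → Fin r), G.card = (fam r (m + 1) s k l).card →
      (shadow (fam r (m + 1) s k l)).card ≤ (shadow G).card := by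
  intro h
  have h1 := h 3 3 3 0 1 (by norm_num) (by norm_num) (by norm_num) le_rfl (by norm_num)
    (by norm_num) G (by decide +kernel)
  revert h1
  decide +kernel

end Pool.Agent.Results.MP_26672a_co.Cex
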